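import Pool.Agent.X39.Near.MasterZ
import Pool.Agent.Y776.Cv.Fix

/-!
# Schanuel's condition in bounded complexity along every analytic curve, at ALL algebraic parameters close to any number outside a set of dimension zero

A positive answer to the problem implies Schanuel's condition (SC) for the complex exponential function: among the
numbers `x_1, …, x_n, exp x_1, …, exp x_n` there are `n` algebraically independent ones if `x_1, …, x_n` are linearly
independent over `ℚ`. Let `l_1, …, l_s` be ANY analytic functions on a connected open set `V`, no nontrivial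
integral combination of which is constant. There are `s` among the `2 s` functions `l_j`, `exp ∘ l_j` such that outside ONE
set of complex numbers `x` of Hausdorff dimension `0`, for all number fields `F ⊂ ℂ`, all `k ≥ 1` and `ω > 0` there are `C`
and `T₁` such that for all `T ≥ T₁` and ALL `z ∈ F` of height at most `T` with `|z - x| ≤ T ^ (-ω)` the `s` values at `z`
satisfy `|P| ≥ H ^ (-C)` for all nonzero integral polynomials `P` of degree at most `k` and of height at most `H`,
`T ^ (1 / k) ≤ H ≤ T ^ k`. More generally there is no relation with coefficients which are polynomials of bounded degree in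
the `a_i(z) / w(z)` and in given complex numbers `ξ_i`, with coefficients in `F` of height at most `T ^ A`: the values are,
in bounded complexity, independent over any finitely generated field given in advance. This holds at the convergents of all
irrational real numbers in `V` outside this set, from some point on.
-/

set_option autoImplicit false

open MeasureTheory NumberField

namespace Pool.Agent.Results.MP_209724_lc.ApproximationsOfAllNumbers

open Pool.Agent.X39.Near (Size Dependent Inequality)

/-- `V` is open, connected and nonempty, `l_1, …, l_s` are analytic on `V`, and no nontrivial combination of them with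
integral coefficients is constant. -/
structure Curve (V : Set ℂ) {s : ℕ} (l : Fin s → ℂ → ℂ) : Prop where
  isOpen : IsOpen V
  isPreconnected : IsPreconnected V
  nonempty : V.Nonempty
  analytic : ∀ j, AnalyticOnNhd ℂ (l j) V
  independent : ∀ m : Fin s → ℤ, m ≠ 0 → ∀ c : ℂ, ∃ z ∈ V, ∑ j, (m j : ℂ) * l j z ≠ c

/-- the functions `l_j` and `exp ∘ l_j` -/
noncomputable def value {s : ℕ} (l : Fin s → ℂ → ℂ) : Fin s ⊕ Fin s → ℂ → ℂ
  | Sum.inl j, z => l j z
  | Sum.inr j, z => Complex.exp (l j z)

/-- the chosen functions -/
noncomputable def chosen {s : ℕ} (l : Fin s → ℂ → ℂ) (e : Fin s → Fin s ⊕ Fin s) (i : Fin s) : ℂ → ℂ := value l (e i)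

/-- the names -/
def nm (s : ℕ) : Pool.Agent.Y776.Cv.Nf 0 s → Fin s ⊕ Fin s :=
  Sum.elim Sum.inl (Sum.elim Sum.inr (Sum.elim (fun i => i.elim0) (Sum.elim (fun i => i.elim0) (fun i => i.elim0))))

theorem nm_inj (s : ℕ) : Function.Injective (nm s) := by
  rintro (i | i | i | i | i) (j | j | j | j | j) h <;> first | exact i.elim0 | exact j.elim0 | skip
  · rw [Sum.inl_injective h]
  · cases h
  · cases h
  · rw [Sum.inr_injective h]

theorem choice_exists {s : ℕ} (hs : 0 < s) {V : Set ℂ} {l : Fin s → ℂ → ℂ} (hl : Curve V l) :
    ∃ e : Fin s → Fin s ⊕ Fin s, Function.Injective e ∧ ∀ t ∈ V, Pool.Agent.Y124.LocInd (chosen l e) t := by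
  have hF : Pool.Agent.Y776.Cv.FxM V (fun i : Fin 0 => i.elim0) (fun i : Fin 0 => i) (fun i : Fin 0 => i.elim0) l :=
    { isOpen := hl.isOpen
      conn := hl.isPreconnected
      ni := fun c => c.elim0
      ua := fun i => i.elim0
      un := fun i => i.elim0
      ui := fun c => c.elim0
      la := hl.analytic
      li := by
        intro m c hc
        by_contra hm
        obtain ⟨z, hz, hne⟩ := hl.independent m hm c
        exact hne (hc z hz) }
  obtain ⟨e, he, hloc⟩ := Pool.Agent.Y776.Cv.fix_sub hF (by omega) hl.nonempty
  refine ⟨fun w => nm s (e w), fun w w' h => he (nm_inj s h), fun t ht => ?_⟩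
  have h1 := hloc t ht
  have h2 : (fun k => Pool.Agent.Y776.Cv.yf (fun i : Fin 0 => i.elim0) (fun i : Fin 0 => i) (fun i : Fin 0 => i.elim0) l
      (e k)) = chosen l (fun w => nm s (e w)) := by
    funext w z
    change _ = value l (nm s (e w)) z
    rcases e w with i | i | i | i | i
    · rfl
    · rfl
    · exact i.elim0
    · exact i.elim0
    · exact i.elim0
  rw [h2] at h1
  exact h1

/-- **Theorem.** Let `l_1, …, l_s` be analytic functions on `V`, no nontrivial integral combination of which is constant.
There is a choice of `s` of the `2 s` functions `l_j`, `exp ∘ l_j` such that for all polynomials `a_k`, `w`, `w` without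
zeros on `V`, and all complex numbers `ξ_1, …, ξ_g` there is a set `E` of complex numbers of Hausdorff dimension `0` such
that for all `x ∈ V` outside `E`:
(1) for all number fields `F` with an embedding `ι` in `ℂ`, all `k ≥ 1` and `ω > 0` there are `C`, `T₁` such that for all
`T ≥ T₁` and all `z ∈ F`, quotients of integers with conjugates at most `T`, with `|ι z - x| ≤ T ^ (-ω)`, every nonzero
integral polynomial of total degree at most `k` and height at most `H`, where `T ^ (1 / k) ≤ H ≤ T ^ k`, has at the
chosen numbers a value of absolute value at least `H ^ (-C)`;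
(2) for all such `F`, `ι`, all `d`, `A` and `ω > 0` there are `B`, `T₁` such that for all `T ≥ T₁` and all such `z` the
numbers are not dependent (coefficients of degree at most `d` in the `a_k(z) / w(z)` and `ξ_i`);
(3) if `x` is real and irrational, for all `d`, `A` there is `B` such that the numbers at the convergents of `x` are not
dependent over `ℚ`, at the level of the denominator, from some point on. -/
theorem result (s : ℕ) (hs : 0 < s) (V : Set ℂ) (l : Fin s → ℂ → ℂ) (hl : Curve V l) :
    ∃ e : Fin s → Fin s ⊕ Fin s, Function.Injective e ∧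
      ∀ (m g : ℕ) (a : Fin m → Polynomial ℂ) (w : Polynomial ℂ), (∀ z ∈ V, w.eval z ≠ 0) → ∀ ξ : Fin g → ℂ,
      ∃ E : Set ℂ, dimH E = 0 ∧
        (∀ x ∈ V, x ∉ E → ∀ (F : Type) [Field F] [NumberField F] (ι : F →+* ℂ)
          (k : ℕ) (ω : ℝ), 1 ≤ k → 0 < ω → ∃ C T₁ : ℝ, ∀ T : ℝ, T₁ ≤ T → ∀ z : F, Size F T z →
            ‖ι z - x‖ ≤ T ^ (-ω) → Inequality k C T (fun j => chosen l e j (ι z))) ∧
        (∀ x ∈ V, x ∉ E → ∀ (F : Type) [Field F] [NumberField F] (ι : F →+* ℂ)
          (d A : ℕ) (ω : ℝ), 0 < ω → ∃ B T₁ : ℝ, ∀ T : ℝ, T₁ ≤ T → ∀ z : F, Size F T z →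
            ‖ι z - x‖ ≤ T ^ (-ω) → ¬ Dependent (chosen l e) a w ξ F ι d A B T z) ∧
        ∀ x : ℝ, Irrational x → (x : ℂ) ∈ V → (x : ℂ) ∉ E → ∀ d A : ℕ, ∃ (B : ℝ) (n₀ : ℕ), ∀ k : ℕ,
          n₀ ≤ k → ¬ Dependent (chosen l e) a w ξ ℚ (algebraMap ℚ ℂ) d A B (x.convergent k).den
            (x.convergent k) := by
  obtain ⟨e, he, hloc⟩ := choice_exists hs hl
  have han : ∀ i, ∀ t ∈ V, AnalyticAt ℂ (chosen l e i) t := by
    intro i t ht
    unfold chosen
    rcases e i with j | j
    · exact hl.analytic j t ht
    · exact (hl.analytic j t ht).cexp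
  refine ⟨e, he, fun m g a w hw ξ => ?_⟩
  obtain ⟨E, h1, h2, h3⟩ := Pool.Agent.X39.Near.master V hl.isOpen (chosen l e) han hloc a w hw ξ
  exact ⟨E, h1, Pool.Agent.X39.Near.ineq_of h2, h2, h3⟩

end Pool.Agent.Results.MP_209724_lc.ApproximationsOfAllNumbers
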