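import Pool.Agent.Y776.Cv.Fix
import Pool.Agent.X255.RH.Loc
import Pool.Agent.X255.RH.Mea3

/-!
# Schanuel's condition in bounded complexity along every analytic curve, at all roots of almost all integral polynomials

A positive answer to the problem implies Schanuel's condition (SC) for the complex exponential function: among the
numbers `x_1, …, x_n, exp x_1, …, exp x_n` there are `n` algebraically independent ones if `x_1, …, x_n` are linearly
independent over `ℚ`. Let `l_1, …, l_s` be ANY analytic functions on a connected open set `V`, no nontrivial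
integral combination of which is constant. We prove (SC), in bounded complexity, for the numbers `l_j (z)`, `z` ALL roots
in `V` of a polynomial, for 100% of the integral polynomials of degree `g`, ordered by the maximum `T` of the absolute
values of the coefficients: there are `s` among the `2 s` functions `l_j`, `exp ∘ l_j` (the same ones for all `g` and all
polynomials) such that their values at the roots (at distance at least `1 / (k + 1)` from the complement
of `V`) satisfy no relation whose degree, and the degree of whose coefficient field, is at most `ω (T)`, and whose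
coefficients are of size at most `T ^ ω (T)`, where `ω (T) → ∞` (the coefficients may also contain arbitrary fixed complex
numbers), and, for integral polynomials of degree at most `k`, a measure of algebraic independence `|P| ≥ H ^ (-C)` for
the heights `H` between `T ^ (1 / k)` and `T ^ k`. If the polynomial has `m` roots in `V`, these are `m s` numbers
among the `m s` numbers `x = l_j (z)` and their exponentials, as predicted by (SC).

Proof: `Pool.Agent.X255.NP` and `Pool.Agent.Y890.MV` (nonstandard versions of the Bombieri-Pila method), Ax's theorem in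
the form `Pool.Agent.Y776.Cv.fix_sub`, and `Pool.Agent.X255.RH` (independence of functions of different variables;
almost no integral polynomial has close roots).
-/

set_option autoImplicit false

open Polynomial Filter NumberField
open scoped Classical

namespace Pool.Agent.Results.MP_209724_lc.ConjugateSchanuel

/-- `V` is open, connected and nonempty, `l_1, …, l_s` are analytic on `V`, and no nontrivial combination of them with
integral coefficients is constant. -/
structure Curve (V : Set ℂ) {s : ℕ} (l : Fin s → ℂ → ℂ) : Prop where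
  isOpen : IsOpen V
  isPreconnected : IsPreconnected V
  nonempty : V.Nonempty
  analytic : ∀ j, AnalyticOnNhd ℂ (l j) V
  independent : ∀ m : Fin s → ℤ, m ≠ 0 → ∀ c : ℂ, ∃ z ∈ V, ∑ j, (m j : ℂ) * l j z ≠ c

/-- the numbers `l_j (z)` and `exp (l_j (z))` -/
noncomputable def value {s : ℕ} (l : Fin s → ℂ → ℂ) (z : ℂ) : Fin s ⊕ Fin s → ℂ
  | Sum.inl j => l j z
  | Sum.inr j => Complex.exp (l j z)

/-- the polynomial `a_g X ^ g + … + a_0` -/
noncomputable def poly {g : ℕ} (a : Fin (g + 1) → ℤ) : ℂ[X] := ∑ i, C (a i : ℂ) * X ^ (i : ℕ)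

/-- the roots of the polynomial in the set `V` -/
noncomputable def rootsIn (V : Set ℂ) {g : ℕ} (a : Fin (g + 1) → ℤ) : Finset ℂ :=
  (poly a).roots.toFinset.filter fun z => z ∈ V

/-- The numbers `x q`, `q ∈ Q`, satisfy no relation of degree at most `k` in each of them with coefficients
`∑ ξ b * c b`, `b < k`, where the `c b` are integers of a number field of degree at most `k`, all of whose conjugates
are of absolute value at most `T ^ k`, except the relations all of whose coefficients vanish. -/
def Unrelated {Q : Type} [Fintype Q] [DecidableEq Q] (ξ : ℕ → ℂ) (k : ℕ) (T : ℝ) (x : Q → ℂ) : Prop :=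
  ∀ (F : Type) [Field F] [NumberField F], Module.finrank ℚ F ≤ k → ∀ (io : F →+* ℂ)
    (c : (Q → Fin (k + 1)) → Fin k → 𝓞 F), (∀ l b (φ : F →+* ℂ), ‖φ (c l b : F)‖ ≤ T ^ k) →
    ∑ l, (∑ b : Fin k, ξ b * io (c l b : F)) * ∏ q, x q ^ (l q : ℕ) = 0 → ∀ l, ∑ b : Fin k, ξ b * io (c l b : F) = 0

/-- Lower bounds for heights between `T ^ (1 / k)` and `T ^ k`: every nonzero integral polynomial `P` of total degree at
most `k` and height at most `H` satisfies `|P (x)| ≥ H ^ (-C)`. -/
def Measure {Q : Type} (k : ℕ) (C T : ℝ) (x : Q → ℂ) : Prop :=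
  ∀ H : ℝ, T ^ ((1 : ℝ) / k) ≤ H → H ≤ T ^ k → ∀ P : MvPolynomial Q ℤ, P ≠ 0 → P.totalDegree ≤ k →
    (∀ m, |((P.coeff m : ℤ) : ℝ)| ≤ H) → H ^ (-C) ≤ ‖MvPolynomial.aeval x P‖

/-- the `a` with `|a_i| ≤ T` -/
noncomputable def box (g T : ℕ) : Finset (Fin (g + 1) → ℤ) := Fintype.piFinset fun _ => Finset.Icc (-(T : ℤ)) T

/-- the points whose distance to the complement of `V` is at least `1 / (k + 1)` -/
def region (V : Set ℂ) (k : ℕ) : Set ℂ := {z | Metric.ball z (1 / ((k : ℝ) + 1)) ⊆ V}

/-- the chosen `s` numbers among `l_j (z)`, `exp (l_j (z))`, `z` all roots of `a` in the set `K` -/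
noncomputable def numbers {g s : ℕ} (K : Set ℂ) (l : Fin s → ℂ → ℂ) (e : Fin s → Fin s ⊕ Fin s)
    (a : Fin (g + 1) → ℤ) (q : {z // z ∈ rootsIn K a} × Fin s) : ℂ :=
  value l q.1 (e q.2)

/-- `a` is of degree `g`, with simple roots, and the numbers at the roots in `region V k` are unrelated -/
def Good {g s : ℕ} (V : Set ℂ) (l : Fin s → ℂ → ℂ) (e : Fin s → Fin s ⊕ Fin s) (ξ : ℕ → ℂ) (k : ℕ) (T : ℝ) (a : Fin (g + 1) → ℤ) : Prop :=
  a (Fin.last g) ≠ 0 ∧ (poly a).Separable ∧ Unrelated ξ k T (numbers (region V k) l e a)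

/-- `a` is of degree `g`, with simple roots, and the numbers at the roots in `region V k` satisfy the lower bounds -/
def GoodM {g s : ℕ} (V : Set ℂ) (l : Fin s → ℂ → ℂ) (e : Fin s → Fin s ⊕ Fin s) (k : ℕ) (C T : ℝ) (a : Fin (g + 1) → ℤ) : Prop :=
  a (Fin.last g) ≠ 0 ∧ (poly a).Separable ∧ Measure k C T (numbers (region V k) l e a)

/-- `a` is of degree `g`, its roots are simple, of absolute value at most `R`, at distance at least `η` from each other,
and the roots in `V` are at distance at least `η` from the complement of `V` -/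
def Position (V : Set ℂ) (R η : ℝ) {g : ℕ} (a : Fin (g + 1) → ℤ) : Prop :=
  a (Fin.last g) ≠ 0 ∧ (poly a).Separable ∧ ∀ z, (poly a).eval z = 0 → ‖z‖ ≤ R ∧
    (∀ w, (poly a).eval w = 0 → w ≠ z → η ≤ ‖z - w‖) ∧ (z ∈ V → Metric.ball z η ⊆ V)

/-- the names -/
def nm (s : ℕ) : Pool.Agent.Y776.Cv.Nf 0 s → Fin s ⊕ Fin s :=
  Sum.elim Sum.inl (Sum.elim Sum.inr (Sum.elim (fun i => i.elim0) (Sum.elim (fun i => i.elim0) (fun i => i.elim0))))

theorem nm_inj (s : ℕ) : Function.Injective (nm s) := by
  rintro (i | i | i | i | i) (j | j | j | j | j) h <;> first | exact i.elim0 | exact j.elim0 | skip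
  · rw [Sum.inl_injective h]
  · cases h
  · cases h
  · rw [Sum.inr_injective h]

theorem choice_exists {s : ℕ} (hs : 0 < s) {V : Set ℂ} {l : Fin s → ℂ → ℂ} (hl : Curve V l) :
    ∃ e : Fin s → Fin s ⊕ Fin s, Function.Injective e ∧
      Pool.Agent.X255.RH.Indep V (fun (w : Fin s) z => value l z (e w)) := by
  have hF : Pool.Agent.Y776.Cv.FxM V (fun i : Fin 0 => i.elim0) (fun i : Fin 0 => i) (fun i : Fin 0 => i.elim0) l :=
    { isOpen := hl.isOpen
      conn := hl.isPreconnected
      ni := fun c => c.elim0
      ua := fun i => i.elim0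
      un := fun i => i.elim0
      ui := fun c => c.elim0
      la := hl.analytic
      li := by
        intro m c hc
        by_contra hm
        obtain ⟨z, hz, hne⟩ := hl.independent m hm c
        exact hne (hc z hz) }
  obtain ⟨e, he, hloc⟩ := Pool.Agent.Y776.Cv.fix_sub hF (by omega) hl.nonempty
  refine ⟨fun w => nm s (e w), fun w w' h => he (nm_inj s h), ?_⟩
  refine Pool.Agent.X255.RH.indep_of_loc hl.isOpen hl.nonempty fun t ht => ?_
  have h1 := hloc t ht
  have h2 : (fun k => Pool.Agent.Y776.Cv.yf (fun i : Fin 0 => i.elim0) (fun i : Fin 0 => i) (fun i : Fin 0 => i.elim0) l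
      (e k)) = fun (w : Fin s) z => value l z (nm s (e w)) := by
    funext w z
    rcases e w with i | i | i | i | i
    · rfl
    · rfl
    · exact i.elim0
    · exact i.elim0
    · exact i.elim0
  rw [h2] at h1
  exact h1

/-- **Theorem.** Let `l_1, …, l_s` be analytic functions on `V`, no nontrivial integral combination of which is constant. For a
certain choice of `s` of the `2 s` functions `l_j`, `exp ∘ l_j` and all `g ≥ 1` the following holds.
(1) For every sequence `ξ` there is a monotone `ω`, `ω(T) → ∞`, such that the proportion of the polynomials with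
`|a_i| ≤ T` which are not `Good` with `k = ω(T)` is at most `1 / ω(T)`.
(2) For every `k ≥ 1` there are `C` and `T₀` such that for `T ≥ T₀` the proportion of the polynomials with `|a_i| ≤ T`
which are not `GoodM` is at most `1 / k`.
(3) For fixed `k ≥ 1`, `R`, `η > 0` and `ε > 0` there are `B`, `C` such that the lower bounds `Measure k B T` for the
numbers at the roots in `V` hold for all but `C T ^ (g + ε)` of the polynomials with `|a_i| ≤ T` whose roots are in the
compact position `Position V R η` (there are about `(2 T) ^ (g + 1)` polynomials).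
The choice `e` of `s` among the `2 s` functions depends only on `V` and `l`, not on `g`. -/
theorem result (s : ℕ) (hs : 0 < s) (V : Set ℂ) (l : Fin s → ℂ → ℂ) (hl : Curve V l) :
    ∃ e : Fin s → Fin s ⊕ Fin s, Function.Injective e ∧ ∀ g : ℕ, 0 < g →
    ((∀ ξ : ℕ → ℂ, ∃ ω : ℕ → ℕ, Tendsto ω atTop atTop ∧ Monotone ω ∧ ∀ T,
      ω T * ((box g T).filter fun a => ¬ Good V l e ξ (ω T) T a).card ≤ (box g T).card) ∧
    (∀ k : ℕ, 1 ≤ k → ∃ (C : ℝ) (T₀ : ℕ), ∀ T : ℕ, T₀ ≤ T →
      (k : ℝ) * ((box g T).filter fun a => ¬ GoodM V l e k C T a).card ≤ (box g T).card) ∧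
    (∀ (k : ℕ) (R η ε : ℝ), 1 ≤ k → 0 < η → 0 < ε → ∃ B C : ℝ, ∀ T : ℕ, 1 ≤ T →
      (((box g T).filter fun a => Position V R η a ∧ ¬ Measure k B T (numbers V l e a)).card : ℝ) ≤
        C * (T : ℝ) ^ ((g : ℝ) + ε))) := by
  have hop : IsOpen V := hl.isOpen
  have hpre : IsPreconnected V := hl.isPreconnected
  obtain ⟨e, he, hind⟩ := choice_exists hs hl
  have han : ∀ w : Fin s, AnalyticOnNhd ℂ (fun z => value l z (e w)) V := by
    intro w
    rcases e w with j | j
    · exact hl.analytic j
    · exact fun z hz => (hl.analytic j z hz).cexp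
  refine ⟨e, he, fun g hg => ?_⟩
  have h2 := fun (k : ℕ) (hk : 1 ≤ k) => Pool.Agent.X255.RH.mea_all (g := g) hg hpre hop
    (Pool.Agent.X255.RH.tame_deep V k) han hind k hk
  refine ⟨fun ξ => ?_, fun k hk => ?_, fun k R η ε hk hη hε => ?_⟩
  · exact Pool.Agent.X255.RH.main_all (g := g) hg hpre hop (region V) (Pool.Agent.X255.RH.tame_deep V) han hind ξ
  · obtain ⟨B, T₀, h⟩ := h2 k hk
    refine ⟨k * max B 0, max 1 T₀, fun T hT => ?_⟩
    have hT1 : (1 : ℝ) ≤ T := by exact_mod_cast (le_max_left _ _).trans hT
    have h3 := h T ((le_max_right _ _).trans hT) (fun b => if b = 0 then 1 else 0)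
    refine le_trans ?_ h3
    refine mul_le_mul_of_nonneg_left ?_ (Nat.cast_nonneg _)
    refine Nat.cast_le.2 (Finset.card_le_card fun a ha => ?_)
    rw [Finset.mem_filter] at ha ⊢
    refine ⟨ha.1, fun hgood => ha.2 ⟨hgood.1, hgood.2.1, ?_⟩⟩
    intro H hH1 hH2 P hP hd hc
    exact hgood.2.2.height hk hT1 hH1 hH2 P hP hd hc
  · obtain ⟨B, C, h⟩ := Pool.Agent.X255.RH.mea_eps (g := g) hg hpre hop han hind V k R η ε hη hε
    refine ⟨k * max B 0, C, fun T hT => ?_⟩
    have hT1 : (1 : ℝ) ≤ T := by exact_mod_cast hT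
    refine le_trans ?_ (h T hT (fun b => if b = 0 then 1 else 0))
    refine Nat.cast_le.2 (Finset.card_le_card fun a ha => ?_)
    rw [Finset.mem_filter] at ha ⊢
    refine ⟨ha.1, ha.2.1, fun hm => ha.2.2 ?_⟩
    intro H hH1 hH2 P hP hd hc
    exact hm.height hk hT1 hH1 hH2 P hP hd hc

end Pool.Agent.Results.MP_209724_lc.ConjugateSchanuel
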