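import Mathlib
import Pool.Agent.Y918.GB.Sch

/-!
# Schanuel's condition in bounded degree for random rational combinations

The axiom (SC) for the complex exponential function says that for all `ℚ`-linearly independent
`z_1, …, z_n` at least `n` of the `2 n` numbers `z_j`, `exp z_j` are algebraically independent.  Here
`z_j` is a random element of a space generated by `k` arbitrary `ℚ`-linearly independent complex numbers
`x_{j,1}, …, x_{j,k}` (for different `j` they may be the same), shifted by an arbitrary number `ζ_j`:

  `z_j = ζ_j + ∑_r a_{j,r} x_{j,r}`,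

with coefficients `a_{j,r}` in a finite set `A` of rational numbers.  For given `n`, `D` and `N` there are
`k₀`, `C` and `δ > 0` such that for `k ≥ k₀` one can choose `n` of the `2 n` expressions, one from each
pair `z_j`, `exp z_j`, in terms of the numbers `x_{j,r}` only, such that for every finite set `A`, every
shift `ζ` and every vector space `W` of dimension at most `N` over the field of algebraic numbers the `n`
chosen numbers satisfy no nonzero polynomial relation of degree at most `D` in each of them with
coefficients in `W`, for all but `C |A|^(n k - δ k)` of the `|A|^(n k)` matrices `a`.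

The proof (`Pool.Agent.Y918.GB.sch` of the library): if the numbers `x_{j,1}, …, x_{j,k}` generate a space
of large dimension over the field of the algebraic numbers, then the additive theorem about cubes is used
for `z_j`, and otherwise the multiplicative one for `exp z_j`.
-/

set_option autoImplicit false

namespace Pool.Agent.Results.MP_209724_lc.RandomCombinations

open Module

/-- The numbers `x_i` satisfy no nonzero polynomial relation with coefficients in `W` of degree at most
`D` in each of them. -/
def NoRelationOver (W : Submodule (algebraicClosure ℚ ℂ) ℂ) (D : ℕ) {m : ℕ} (x : Fin m → ℂ) : Prop :=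
  ∀ p : MvPolynomial (Fin m) ℂ, (∀ s, p.coeff s ∈ W) → (∀ i, p.degreeOf i ≤ D) →
    MvPolynomial.eval x p = 0 → p = 0

/-- The number `z_j = ζ_j + ∑_r a_{j,r} x_{j,r}`. -/
noncomputable def comb {n k : ℕ} (ζ : Fin n → ℂ) (x : Fin n → Fin k → ℂ) (a : Fin n → Fin k → ℚ)
    (j : Fin n) : ℂ := ζ j + ∑ r : Fin k, (a j r : ℂ) * x j r

/-- One of the two numbers `z`, `exp z`. -/
noncomputable def pick (c : Bool) (z : ℂ) : ℂ := if c then z else Complex.exp z

open Classical in
/-- **Schanuel's condition in bounded degree for random rational combinations.** -/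
theorem result (n D N : ℕ) : ∃ (k₀ C : ℕ) (δ : ℝ), 0 < δ ∧ ∀ k ≥ k₀, ∀ x : Fin n → Fin k → ℂ,
    (∀ j, LinearIndependent ℚ (x j)) → ∃ c : Fin n → Bool, ∀ A : Finset ℚ, A.Nonempty →
    ∀ W : Submodule (algebraicClosure ℚ ℂ) ℂ, Module.Finite (algebraicClosure ℚ ℂ) W →
    finrank (algebraicClosure ℚ ℂ) W ≤ N → ∀ ζ : Fin n → ℂ,
    (((Fintype.piFinset fun _ : Fin n => Fintype.piFinset fun _ : Fin k => A).filter
      (fun a : Fin n → Fin k → ℚ =>
        ¬ NoRelationOver W D (fun j => pick (c j) (comb ζ x a j)))).card : ℝ) ≤
      C * (A.card : ℝ) ^ ((n * k : ℝ) - δ * k) := by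
  obtain ⟨k₀, C, δ, hδ, h⟩ := Pool.Agent.Y918.GB.sch n D N
  refine ⟨k₀, C, δ, hδ, fun k hk x hx => ?_⟩
  obtain ⟨c, hc⟩ := h k hk x hx
  refine ⟨c, fun A hA W hW hWN ζ => ?_⟩
  refine le_trans ?_ (hc A hA W hW hWN ζ)
  apply Nat.cast_le.2
  apply Finset.card_le_card
  intro a ha
  rw [Finset.mem_filter] at ha ⊢
  refine ⟨ha.1, ?_⟩
  have h1 := ha.2
  unfold NoRelationOver at h1
  push Not at h1
  obtain ⟨p, hp1, hp2, hp3, hp4⟩ := h1
  refine ⟨p, hp4, hp1, hp2, ?_⟩
  have e1 : (fun j => bif c j then ζ j + ∑ i, (a j i : ℂ) * x j i else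
      Complex.exp (ζ j + ∑ i, (a j i : ℂ) * x j i)) = fun j => pick (c j) (comb ζ x a j) := by
    funext j
    unfold pick comb
    cases c j <;> rfl
  rw [e1]
  exact hp3

end Pool.Agent.Results.MP_209724_lc.RandomCombinations
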