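import Mathlib
import Pool.Agent.Y918.GB.Mat

/-!
# Schanuel's condition in bounded degree for exponentials of random products

For every `j < n` let `x_{j,0}, …, x_{j,d}` and `y_{j,1}, …, y_{j,k}` be two systems of
`ℚ`-linearly independent complex numbers, and

  `Y_j = ∑_r a_{j,r} y_{j,r}`,

with coefficients in a finite set `A` of rational numbers.  If `Y_j ≠ 0` then the `d + 1` numbers
`x_{j,i} Y_j` are linearly independent over `ℚ`.  Schanuel's condition (SC) for these numbers (and its
consequences, of the type of the conjecture of the four exponentials) concerns their exponentials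
`exp (x_{j,i} Y_j)`.  The theorem says: for given `n`, `d`, `D` and `N` there are `k₀`, `C` and `δ > 0`
such that for `k ≥ k₀` one can omit one index `i_j` for each `j`, in terms of the `x` and `y` only, such
that for every finite set `A`, all shifts `ξ` and every vector space `W` of dimension at most `N` over the
field of algebraic numbers the `n d` remaining exponentials

  `exp (ξ_{j,i} + x_{j,i} Y_j)`,  `i ≠ i_j`,

satisfy no nonzero polynomial relation of degree at most `D` in each of them with coefficients in `W`, for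
all but `C |A|^(n k - δ k)` of the `|A|^(n k)` matrices `a`.
-/

set_option autoImplicit false

namespace Pool.Agent.Results.MP_209724_lc.RandomMatrices

open Module

/-- The numbers `y_i` satisfy no nonzero polynomial relation with coefficients in `W` of degree at most
`D` in each of them. -/
def NoRelationOver (W : Submodule (algebraicClosure ℚ ℂ) ℂ) (D : ℕ) {ι : Type} (y : ι → ℂ) : Prop :=
  ∀ p : MvPolynomial ι ℂ, (∀ s, p.coeff s ∈ W) → (∀ i, p.degreeOf i ≤ D) →
    MvPolynomial.eval y p = 0 → p = 0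

/-- The number `Y_j = ∑_r a_{j,r} y_{j,r}`. -/
noncomputable def comb {n k : ℕ} (y : Fin n → Fin k → ℂ) (a : Fin n → Fin k → ℚ) (j : Fin n) : ℂ :=
  ∑ r : Fin k, (a j r : ℂ) * y j r

open Classical in
/-- **Exponentials of random products.** -/
theorem result (d n D N : ℕ) : ∃ (k₀ C : ℕ) (δ : ℝ), 0 < δ ∧ ∀ k ≥ k₀,
    ∀ (x : Fin n → Fin (d + 1) → ℂ) (y : Fin n → Fin k → ℂ),
    (∀ j, LinearIndependent ℚ (x j)) → (∀ j, LinearIndependent ℚ (y j)) →
    ∃ i : Fin n → Fin (d + 1), ∀ A : Finset ℚ, A.Nonempty →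
    ∀ W : Submodule (algebraicClosure ℚ ℂ) ℂ, Module.Finite (algebraicClosure ℚ ℂ) W →
    finrank (algebraicClosure ℚ ℂ) W ≤ N → ∀ ξ : Fin n → Fin d → ℂ,
    (((Fintype.piFinset fun _ : Fin n => Fintype.piFinset fun _ : Fin k => A).filter
      (fun a : Fin n → Fin k → ℚ => ¬ NoRelationOver W D (fun p : Fin n × Fin d =>
        Complex.exp (ξ p.1 p.2 + x p.1 ((i p.1).succAbove p.2) * comb y a p.1)))).card : ℝ) ≤
      C * (A.card : ℝ) ^ ((n * k : ℝ) - δ * k) := by
  obtain ⟨k₀, C, δ, hδ, h⟩ := Pool.Agent.Y918.GB.mat d n D N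
  refine ⟨k₀, C, δ, hδ, fun k hk x y hx hy => ?_⟩
  obtain ⟨i, hi⟩ := h k hk x y hx hy
  refine ⟨i, fun A hA W hW hWN ξ => ?_⟩
  refine le_trans ?_ (hi A hA W hW hWN ξ)
  apply Nat.cast_le.2
  apply Finset.card_le_card
  intro a ha
  rw [Finset.mem_filter] at ha ⊢
  refine ⟨ha.1, ?_⟩
  have h1 := ha.2
  unfold NoRelationOver at h1
  push Not at h1
  obtain ⟨p, hp1, hp2, hp3, hp4⟩ := h1
  exact ⟨p, hp4, hp1, hp2, hp3⟩

end Pool.Agent.Results.MP_209724_lc.RandomMatrices
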